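import Pool.Agent.Helper85.OD.Blk
import Pool.Graph.R_seed8.Y127.C.Aut2

/-!
# Application to multilinear maps with values in an algebra
-/

set_option linter.unusedSectionVars false
set_option autoImplicit false

namespace Pool.Agent.Helper85.OD

open Module Finset Function Pool.Agent.TH118.SG Pool.Agent.TH125.Gal Pool.Agent.Y127.G
  Pool.Agent.Y127.C Pool.Agent.Helper85.SJ

variable {K : Type} [Field K] [CharZero K] [IsAlgClosed K] {Γ : Type} [Group Γ]
  {A : Type} [Ring A] [Algebra K A] [FiniteDimensional K A]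

/-- A member of the Lie algebra of the family which kills the generators of the algebra and the
characters kills the multilinear maps with values in the algebra. -/
theorem kill_of_D {ι : Type} {m : ℕ} {T : ι → FRep K Γ} {M : Fin m → FRep K Γ}
    {χ : Γ →* Kˣ} {τ : Γ →* (A ≃ₐ[K] A)} {S : Set ι} (hgen : GenBy T M χ τ S)
    {μ : ι → Γ →* Kˣ} {κ : Fin m → Γ →* Kˣ} {lam : Γ →* Kˣ} {i : ι}
    {D : ∀ j, (fam T M μ κ χ lam τ j).V →ₗ[K] (fam T M μ κ χ lam τ j).V}
    (hD : D ∈ GG1 (fam T M μ κ χ lam τ)) (hDT : ∀ j ∈ S, D (Ix.t j) = 0)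
    (hDM : ∀ a, D (Ix.pc a) = 0) {R : Type} [Fintype R] [DecidableEq R]
    {h : MultilinearMap K (fun _ : R => (T i).V) A} (hh : Eqv (T i).ρ (algRep lam τ).ρ h) :
    Kill (T := (T i).V) (D (Ix.t i)) h := by
  classical
  let N : Ix ι m → FRep K Γ := fam T M μ κ χ lam τ
  have hDG : D ∈ GG N := GG1_le hD
  have hDl : D Ix.lam = 0 := GG1_line hD (line_finrank _).le
  have hDc : ∀ n, D (Ix.chi n) = 0 := fun n => GG1_line hD (line_finrank _).le
  -- the derivation of the algebra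
  let E : A →ₗ[K] A := D Ix.alg
  have hE : ∀ a b : A, E (a * b) = E a * b + a * E b := by
    intro a b
    have h1 : ∀ (g : Γ) (x y : A), (((1 : Γ →* Kˣ) g : K) • τ g x) *
        (((1 : Γ →* Kˣ) g : K) • τ g y) = ((1 : Γ →* Kˣ) g : K) • τ g (x * y) := by
      intro g x y
      simp
    exact (bil_der (N := N) (a := Ix.alg) (b := Ix.alg) (c := Ix.alg) (LinearMap.mul K A)
      (Δ := ⊤) inferInstance (fun g _ x y => h1 g x y) hDG a b).symm
  have hE1 : E 1 = 0 := by
    have h1 := hE 1 1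
    rw [mul_one, mul_one, one_mul] at h1
    exact left_eq_add.1 h1
  have hE0 : ∀ a : A, E a = 0 := by
    intro a
    have ha : a ∈ Algebra.adjoin K (SemiInv χ τ ∪
      ({x | ∃ j ∈ S, ∃ f : (T j).V →ₗ[K] A, (∀ g y, f ((T j).ρ g y) = τ g (f y)) ∧ ∃ y, f y = x} ∪
       {x | ∃ a, ∃ f : (M a).V →ₗ[K] A, (∀ g y, f ((M a).ρ g y) = τ g (f y)) ∧ ∃ y, f y = x})) := by
      rw [hgen]
      exact Algebra.mem_top
    induction ha using Algebra.adjoin_induction with
    | mem a ha =>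
      rcases ha with ⟨n, Δ, hΔ, h1⟩ | ⟨j, hj, f, hf, z, rfl⟩ | ⟨b, f, hf, z, rfl⟩
      · have h4 : ∀ g ∈ Δ, ∀ z : K, (((χ ^ n) g : K) • z) • a =
            ((1 : Γ →* Kˣ) g : K) • τ g (z • a) := by
          intro g hg z
          rw [map_smul, h1 g hg, MonoidHom.one_apply, Units.val_one, one_smul,
            MonoidHom.pow_apply, Units.val_pow_eq_pow_val, smul_comm z, smul_assoc]
        have h2 := lin_der (N := N) (a := Ix.chi n) (c := Ix.alg)
          (LinearMap.toSpanSingleton K A a) hΔ (fun g hg z => h4 g hg z) hDG (1 : K)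
        rw [hDc] at h2
        have h3 : E ((1 : K) • a) = 0 := by
          refine Eq.trans h2.symm ?_
          exact map_zero _
        rwa [one_smul] at h3
      · have h4 : ∀ (g : Γ) (y : (T j).V), f ((T j).ρ g y) =
            ((1 : Γ →* Kˣ) g : K) • τ g (f y) := by
          intro g y
          rw [hf, MonoidHom.one_apply, Units.val_one, one_smul]
        have h2 := lin_der (N := N) (a := Ix.t j) (c := Ix.alg) f (Δ := ⊤) inferInstance
          (fun g _ y => h4 g y) hDG z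
        rw [hDT j hj] at h2
        exact h2.symm.trans (map_zero f)
      · have h4 : ∀ (g : Γ) (y : (M b).V), f ((M b).ρ g y) =
            ((1 : Γ →* Kˣ) g : K) • τ g (f y) := by
          intro g y
          rw [hf, MonoidHom.one_apply, Units.val_one, one_smul]
        have h2 := lin_der (N := N) (a := Ix.pc b) (c := Ix.alg) f (Δ := ⊤) inferInstance
          (fun g _ y => h4 g y) hDG z
        rw [hDM b] at h2
        exact h2.symm.trans (map_zero f)
    | algebraMap r => rw [Algebra.algebraMap_eq_smul_one, map_smul, hE1, smul_zero]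
    | add a b _ _ ha hb => rw [map_add, ha, hb, add_zero]
    | mul a b _ _ ha hb => rw [hE, ha, hb, zero_mul, mul_zero, add_zero]
  -- the target
  have htgt : ∀ a : A, D Ix.tgt a = 0 := by
    intro a
    have h4 : ∀ (g : Γ) (x : K) (y : A), ((lam g : K) • x) • (((1 : Γ →* Kˣ) g : K) • τ g y) =
        (lam g : K) • τ g (x • y) := by
      intro g x y
      rw [map_smul, MonoidHom.one_apply, Units.val_one, one_smul, smul_assoc]
    have h1 := bil_der (N := N) (a := Ix.lam) (b := Ix.alg) (c := Ix.tgt)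
      (LinearMap.lsmul K A) (Δ := ⊤) inferInstance (fun g _ x y => h4 g x y) hDG (1 : K) a
    rw [hDl] at h1
    have h2 : D Ix.tgt ((1 : K) • a) = 0 := by
      refine Eq.trans h1.symm ?_
      change (0 : K) • a + (1 : K) • E a = 0
      rw [hE0, smul_zero, zero_smul, add_zero]
    rwa [one_smul] at h2
  intro w
  obtain ⟨Δ, hΔ, hΔh⟩ := hh
  have h1 := hDG R (fun _ => Ix.t i) Ix.tgt h ⟨Δ, hΔ, hΔh⟩ w
  have h2 : D Ix.tgt (h w) = 0 := htgt (h w)
  refine Eq.trans (Finset.sum_congr rfl fun j _ => ?_) (h1.trans h2)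
  rfl



/-- A representation of orthogonal type: a symmetric form which is invariant up to a character,
strongly irreducible, of rank `3` or at least `5`, with an element which acts with exactly one
nontrivial Jordan block, of size `D + 1`. -/
structure ORep (g : Γ) (D : ℕ) (M : FRep K Γ) where
  B : M.V →ₗ[K] M.V →ₗ[K] K
  μ : Γ →* Kˣ
  eqv : ∀ g x y, B (M.ρ g x) (M.ρ g y) = (μ g : K) * B x y
  sy : ∀ x y, B x y = B y x
  nd : ∀ x, (∀ y, B x y = 0) → x = 0
  si : SI M.ρ
  dim : finrank K M.V = 3 ∨ 5 ≤ finrank K M.V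
  pos : 0 < D
  blk : OneBlk (M.ρ g) D
  cond : Cond (K := K) (T := M.V) 1 D M.ρ

/-- `(g - 1) ^ n = 0` on `M`. -/
def Mild (g : Γ) (n : ℕ) (M : FRep K Γ) : Prop := (M.ρ g - 1 : End K M.V) ^ n = 0

/-- The representation `M` is small with respect to `g`, `D` and the rank `r`. -/
def SmallR (g : Γ) (D r : ℕ) (M : FRep K Γ) : Prop :=
  Mild g (D - 1) M ∨ (HasForm 1 M ∧ finrank K M.V < r) ∨
    (HasForm (-1) M ∧ finrank K M.V + 1 < r)

/-- **The main application.** -/
theorem kill_of_data {ι : Type} {m : ℕ} {T : ι → FRep K Γ} {M : Fin m → FRep K Γ}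
    {χ : Γ →* Kˣ} {τ : Γ →* (A ≃ₐ[K] A)} {S : Set ι} (hS : S.Finite) (hgen : GenBy T M χ τ S)
    {g : ι → Γ} {dd : ι → ℕ} (hT : ∀ j, ORep (g j) (dd j) (T j))
    (hiso : ∀ i j, i ≠ j → ¬IsoUpTo (T i) (T j)) {i : ι} (hi : i ∉ S)
    (h8 : ∀ j, j ≠ i → finrank K (T i).V = 8 → finrank K (T j).V = 8 →
      Mild (g i) (dd i - 1) (T j) ∨ Mild (g j) (dd j - 1) (T i))
    (hM : ∀ a, SmallR (g i) (dd i) (finrank K (T i).V) (M a)) (lam : Γ →* Kˣ)
    {R : Type} [Fintype R] [DecidableEq R]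
    {h : MultilinearMap K (fun _ : R => (T i).V) A} (hh : Eqv (T i).ρ (algRep lam τ).ρ h)
    (x y : (T i).V) : Kill (oo (hT i).B 1 x y) h := by
  classical
  -- the characters of the forms
  have hκ : ∀ a, ∃ κ : Γ →* Kˣ, Mild (g i) (dd i - 1) (M a) ∨
      (∃ B : (M a).V →ₗ[K] (M a).V →ₗ[K] K, (∀ x y, B x y = (1 : K) * B y x) ∧
        (∀ x, (∀ y, B x y = 0) → x = 0) ∧
        (∀ g x y, B ((M a).ρ g x) ((M a).ρ g y) = (κ g : K) * B x y) ∧
        finrank K (M a).V < finrank K (T i).V) ∨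
      (∃ B : (M a).V →ₗ[K] (M a).V →ₗ[K] K, (∀ x y, B x y = (-1 : K) * B y x) ∧
        (∀ x, (∀ y, B x y = 0) → x = 0) ∧
        (∀ g x y, B ((M a).ρ g x) ((M a).ρ g y) = (κ g : K) * B x y) ∧
        finrank K (M a).V + 1 < finrank K (T i).V) := by
    intro a
    rcases hM a with h1 | ⟨⟨μ, B, h1, h2, h3⟩, h4⟩ | ⟨⟨μ, B, h1, h2, h3⟩, h4⟩
    · exact ⟨1, Or.inl h1⟩
    · exact ⟨μ, Or.inr (Or.inl ⟨B, h1, h2, h3, h4⟩)⟩
    · exact ⟨μ, Or.inr (Or.inr ⟨B, h1, h2, h3, h4⟩)⟩
  choose κ hκ using hκ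
  let N : Ix ι m → FRep K Γ := fam T M (fun j => (hT j).μ) κ χ lam τ
  -- the members of orthogonal type
  let fr : ∀ j, Frm N (Ix.t j) := fun j => ⟨(hT j).B, fun g => ((hT j).μ g : K), (hT j).eqv,
    Ix.mu j, line_finrank _, fun g x => rfl⟩
  have hfr : ∀ j, ∃ o : Ful N (Ix.t j), o.toFrm = fr j ∧
      ∀ a, ((N a).ρ (g j) - 1 : End K (N a).V) ^ (dd j - 1) = 0 → Good N (Ix.t j) a := fun j =>
    blk_ful (N := N) (t := Ix.t j) (fr j) (hT j).sy (hT j).nd (hT j).si (hT j).dim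
      ((Units.coeHom K).comp (hT j).μ) (fun g => rfl) (hT j).pos (hT j).blk (hT j).cond
  choose o ho hmild using hfr
  have hoB : ∀ j, (o j).B = (hT j).B := fun j => by rw [ho]
  have hgoodT : ∀ j, j ≠ i → Good N (Ix.t i) (Ix.t j) := by
    intro j hj
    by_cases hi8 : finrank K (T i).V = 8
    · by_cases hj8 : finrank K (T j).V = 8
      · rcases h8 j hj hi8 hj8 with h1 | h1
        · exact hmild i (Ix.t j) h1
        · exact (o i).good_symm (o j) (hmild j (Ix.t i) h1)
      · exact (o i).good_symm (o j) ((o j).good_of_not_iso (o i) hj8 (hiso i j hj.symm))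
    · exact (o i).good_of_not_iso (o j) hi8 (hiso j i hj)
  have hgoodM : ∀ a, Good N (Ix.t i) (Ix.pc a) := by
    intro a
    rcases hκ a with h1 | ⟨B, h1, h2, h3, h4⟩ | ⟨B, h1, h2, h3, h4⟩
    · exact hmild i (Ix.pc a) h1
    · exact (o i).good_of_sym (a := Ix.pc a) ⟨B, fun g => (κ a g : K), h3, Ix.cf a,
        line_finrank _, fun g x => rfl⟩ (fun x y => (h1 x y).trans (one_mul _)) h2 h4
    · exact (o i).good_of_alt (a := Ix.pc a) ⟨B, fun g => (κ a g : K), h3, Ix.cf a,
        line_finrank _, fun g x => rfl⟩ (fun x y => (h1 x y).trans (neg_one_mul _)) h2 h4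
  -- an operator which kills the other members
  obtain ⟨D, hD, hD0, hDt⟩ := (o i).good_finset
    (hS.toFinset.image Ix.t ∪ (univ : Finset (Fin m)).image Ix.pc) (by
      intro a ha
      rcases Finset.mem_union.1 ha with ha | ha
      · obtain ⟨j, hj, rfl⟩ := Finset.mem_image.1 ha
        exact hgoodT j fun h => hi (h ▸ (hS.mem_toFinset.1 hj))
      · obtain ⟨a, -, rfl⟩ := Finset.mem_image.1 ha
        exact hgoodM a) x y
  have hDT : ∀ j ∈ S, D (Ix.t j) = 0 := fun j hj => hD0 _ (Finset.mem_union_left _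
    (Finset.mem_image.2 ⟨j, hS.mem_toFinset.2 hj, rfl⟩))
  have hDM : ∀ a, D (Ix.pc a) = 0 := fun a => hD0 _ (Finset.mem_union_right _
    (Finset.mem_image.2 ⟨a, Finset.mem_univ _, rfl⟩))
  have h1 := kill_of_D (i := i) hgen hD hDT hDM hh
  have h3 : D (Ix.t i) = oo (hT i).B 1 x y := by
    rw [hDt, hoB]
    rfl
  have h4 : Kill (T := (T i).V) (oo (hT i).B 1 x y) h := by
    rw [← h3]
    exact h1
  exact h4

end Pool.Agent.Helper85.OD
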