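import Pool.Agent.Helper85.SJ.Ideal
import Pool.Graph.R_seed8.Q71.TM.App

/-!
# Members of orthogonal type with exactly one nontrivial Jordan block
-/

set_option linter.unusedSectionVars false
set_option autoImplicit false

namespace Pool.Agent.Helper85.OD

open Module Finset Function Pool.Agent.TH118.SG Pool.Agent.TH125.Gal Pool.Agent.Y127.G
  Pool.Agent.Y127.C Pool.Agent.Q71.TM Pool.Agent.Helper85.SJ

section log

variable {K : Type} [Field K] [CharZero K] {E : Type} [AddCommGroup E] [Module K E]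

/-- The logarithm of a unipotent operator `U` is `U - 1` times a unit. -/
theorem lg_unit {n : ℕ} {U : End K E} (hU : (U - 1) ^ n = 0) :
    ∃ V : End K E, IsUnit V ∧ Commute (U - 1) V ∧ lg n U = (U - 1) * V := by
  rcases Nat.lt_or_ge n 2 with h | h
  · refine ⟨1, isUnit_one, Commute.one_right _, ?_⟩
    have h1 : U - 1 = 0 := by
      rw [← pow_one (U - 1)]
      exact pow_eq_zero_of_le (by omega) hU
    rw [lg, h1, zero_mul]
    refine Finset.sum_eq_zero fun i _ => ?_
    rcases Nat.eq_zero_or_pos i with h2 | h2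
    · rw [h2, lc_zero, zero_smul]
    · rw [zero_pow (by omega), smul_zero]
  · obtain ⟨ν, hν⟩ : ∃ ν, ν = U - 1 := ⟨_, rfl⟩
    obtain ⟨W, hW⟩ : ∃ W : End K E, W = ∑ i ∈ range (n - 2), lc K (i + 2) • ν ^ i := ⟨_, rfl⟩
    have hcomm : Commute ν W := by
      rw [hW]
      refine Commute.sum_right _ _ _ fun i _ => ?_
      exact ((Commute.refl ν).pow_right i).smul_right _
    have hnil : IsNilpotent (ν * W) := by
      refine ⟨n, ?_⟩
      rw [hcomm.mul_pow, hν, hU, zero_mul]
    refine ⟨1 + ν * W, hnil.isUnit_one_add, ?_, ?_⟩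
    · rw [← hν]
      exact (Commute.one_right _).add_right ((Commute.refl ν).mul_right hcomm)
    · rw [← hν, lg, ← hν]
      obtain ⟨m, rfl⟩ : ∃ m, n = m + 2 := ⟨n - 2, by omega⟩
      rw [Nat.add_sub_cancel] at hW
      rw [Finset.sum_range_succ', Finset.sum_range_succ', lc_zero, zero_smul, add_zero, zero_add,
        lc_one, one_smul, pow_one, hW, mul_add, mul_one, Finset.mul_sum, Finset.mul_sum, add_comm]
      congr 1
      refine Finset.sum_congr rfl fun i _ => ?_
      rw [mul_smul_comm, mul_smul_comm, ← pow_succ', ← pow_succ']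

end log

variable {K : Type} [Field K] [CharZero K] [IsAlgClosed K] {Γ : Type} [Group Γ] {ι : Type}
  {N : ι → FRep K Γ} {t : ι}

/-- `U` is unipotent with one Jordan block of size `D + 1`, and the others have size one. -/
def OneBlk {T : Type} [AddCommGroup T] [Module K T] (U : End K T) (D : ℕ) : Prop :=
  IsNilpotent (U - 1) ∧ finrank K (LinearMap.range (U - 1)) = D ∧ (U - 1) ^ D ≠ 0

/-- The skew operators which are components of members of the Lie algebra. -/
def SL (fr : Frm N t) : Submodule K (End K (N t).V) where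
  carrier := {X | (∀ u v, fr.B (X u) v + fr.B u (X v) = 0) ∧ ∃ D ∈ GG N, D t = X}
  zero_mem' := ⟨fun x y => by simp, 0, (GG N).zero_mem, rfl⟩
  add_mem' := by
    rintro A A' ⟨hA, D, hD, hDA⟩ ⟨hA', D', hD', hDA'⟩
    refine ⟨fun x y => ?_, D + D', (GG N).add_mem hD hD', ?_⟩
    · simp only [LinearMap.add_apply, map_add]
      linear_combination hA x y + hA' x y
    · rw [Pi.add_apply, hDA, hDA']
  smul_mem' := by
    rintro c A ⟨hA, D, hD, hDA⟩
    refine ⟨fun x y => ?_, c • D, (GG N).smul_mem c hD, ?_⟩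
    · simp only [LinearMap.smul_apply, map_smul, smul_eq_mul]
      linear_combination c * hA x y
    · rw [Pi.smul_apply, hDA]

theorem SL_br (fr : Frm N t) : ∀ X ∈ SL fr, ∀ Y ∈ SL fr, X * Y - Y * X ∈ SL fr := by
  rintro X ⟨hX, D, hD, rfl⟩ Y ⟨hY, D', hD', rfl⟩
  exact ⟨Pool.Agent.Helper85.SJ.skew_br hX hY, brk D D', GG_brk hD hD', rfl⟩

theorem SL_conj (fr : Frm N t) (g : Γ) :
    ∀ X ∈ SL fr, ((N t).ρ g * X * (N t).ρ g⁻¹ : End K (N t).V) ∈ SL fr := by
  rintro X ⟨hX, D, hD, rfl⟩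
  refine ⟨fun u w => ?_, cnj g D, GG_cnj hD g, rfl⟩
  have h1 := hX ((N t).ρ g⁻¹ u) ((N t).ρ g⁻¹ w)
  have h2 := fr.eqv g (D t ((N t).ρ g⁻¹ u)) ((N t).ρ g⁻¹ w)
  have h3 := fr.eqv g ((N t).ρ g⁻¹ u) (D t ((N t).ρ g⁻¹ w))
  rw [FRep.inv_right] at h2 h3
  change fr.B ((N t).ρ g (D t ((N t).ρ g⁻¹ u))) w + fr.B u ((N t).ρ g (D t ((N t).ρ g⁻¹ w))) = 0
  rw [h2, h3, ← mul_add, h1, mul_zero]

/-- iterated brackets -/
def adN (J : ∀ i, (N i).V →ₗ[K] (N i).V) (n : ℕ) (D : ∀ i, (N i).V →ₗ[K] (N i).V) :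
    ∀ i, (N i).V →ₗ[K] (N i).V := (fun X => brk J X)^[n] D

theorem adN_apply (J D : ∀ i, (N i).V →ₗ[K] (N i).V) (n : ℕ) (i : ι) :
    adN J n D i = (Pool.Agent.Y126.JB.ad K (J i : End K (N i).V) ^ n) (D i) := by
  induction n with
  | zero => rfl
  | succ n ih =>
    rw [adN, Function.iterate_succ_apply', pow_succ', Module.End.mul_apply, ← ih]
    rfl

theorem adN_mem {J D : ∀ i, (N i).V →ₗ[K] (N i).V} (hJ : J ∈ GG N) (hD : D ∈ GG N) (n : ℕ) :
    adN J (n + 1) D ∈ GG1 N := by
  have h1 : ∀ n, adN J n D ∈ GG N := by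
    intro n
    induction n with
    | zero => exact hD
    | succ n ih =>
      rw [adN, Function.iterate_succ_apply']
      exact GG_brk hJ ih
  rw [adN, Function.iterate_succ_apply']
  exact brk_mem1 hJ (h1 n)

/-- **One Jordan block.** The member `t` has the whole orthogonal Lie algebra, and the members with
milder monodromy can be killed. -/
theorem blk_ful (fr : Frm N t) (sy : ∀ x y, fr.B x y = fr.B y x)
    (nd : ∀ x, (∀ y, fr.B x y = 0) → x = 0) (si : SI (N t).ρ)
    (dim : finrank K (N t).V = 3 ∨ 5 ≤ finrank K (N t).V) (μ : Γ →* K) (hμ : ∀ g, fr.μ g = μ g)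
    {g : Γ} {D : ℕ} (hD : 0 < D) (h : OneBlk ((N t).ρ g) D)
    (hc : Cond (K := K) (T := (N t).V) 1 D (N t).ρ) :
    ∃ o : Ful N t, o.toFrm = fr ∧ ∀ a, ((N a).ρ g - 1 : End K (N a).V) ^ (D - 1) = 0 →
      Good N t a := by
  obtain ⟨hnil, hrank, hne⟩ := h
  obtain ⟨J, hJG, hJ⟩ := exists_GGlog N g
  have hN0 : ((N t).ρ g - 1 : End K (N t).V) ^ (D + 1) = 0 := rank_pow hnil hrank
  obtain ⟨e, he⟩ : ∃ e : End K (N t).V, e = J t := ⟨_, rfl⟩
  obtain ⟨V, hV, hcomm, hlg⟩ := lg_unit hN0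
  have heV : e = ((N t).ρ g - 1) * V := by rw [he, hJ t (D + 1) hN0, hlg]
  have he0 : e ^ (D + 1) = 0 := by rw [heV, hcomm.mul_pow, hN0, zero_mul]
  have hen : IsNilpotent e := ⟨D + 1, he0⟩
  have heD : e ^ D ≠ 0 := by
    intro h0
    apply hne
    rw [heV, hcomm.mul_pow] at h0
    exact (hV.pow D).mul_left_eq_zero.1 h0
  have hrk : finrank K (LinearMap.range e) = D := by
    have h1 : LinearMap.range e = LinearMap.range ((N t).ρ g - 1) := by
      apply le_antisymm
      · rintro _ ⟨y, rfl⟩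
        rw [heV, Module.End.mul_apply]
        exact ⟨_, rfl⟩
      · rintro _ ⟨y, rfl⟩
        obtain ⟨u, hu⟩ := hV
        refine ⟨(↑u⁻¹ : End K (N t).V) y, ?_⟩
        rw [heV, ← hu, ← Module.End.mul_apply, mul_assoc, Units.mul_inv, mul_one]
    rw [h1, hrank]
  obtain ⟨a, ha⟩ := fr.der hJG
  have hes : ∀ x y, fr.B (e x) y + fr.B x (e y) = 0 := by
    rw [he] at he0 ⊢
    exact skew_of_nil nd ha he0
  have hsym : ∀ u v, fr.B u v = ((1 : ℤ) : K) * fr.B v u := by
    intro u v
    rw [Int.cast_one, one_mul, sy]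
  obtain ⟨⟨h, f, x, hhL, hfL, hst⟩, hTT⟩ := all_TT (L := SL fr) (R := (N t).ρ) (μ := μ)
    (Or.inl rfl) hsym nd (fun g u v => by rw [← hμ]; exact fr.eqv g u v) si (SL_conj fr) (SL_br fr)
    (fun Y hY => hY.1) ⟨hes, J, hJG, he.symm⟩ hen hD hrk heD hc
  have hev := even_of_sym hst sy
  have hJ0 : fr.B (x D) (x 0) ≠ 0 := hst.pair D 0 (by omega)
  refine ⟨⟨fr, sy, nd, si, dim, x 0, (fr.B (x D) (x 0))⁻¹ • x D, hst.orth 0 0 (by omega), ?_, ?_,
    fun u v => ?_⟩, rfl, fun b hb => ?_⟩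
  · rw [map_smul, map_smul, LinearMap.smul_apply, hst.orth D D (by omega), smul_zero, smul_zero]
  · rw [map_smul, LinearMap.smul_apply, smul_eq_mul, inv_mul_cancel₀ hJ0]
  · obtain ⟨-, D', hD', h1⟩ := hTT v u
    refine ⟨D', hD', 0, ?_⟩
    rw [h1]
    refine LinearMap.ext fun z => ?_
    rw [zero_smul, add_zero, Pool.Agent.V1141.OF.TT_apply, oo_one_apply, Int.cast_one, one_mul]
  · obtain ⟨-, D', hD', h1⟩ := hTT (x D) (x (D - 1))
    have hpos : 0 < D := hD
    obtain ⟨d, hd⟩ := hev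
    refine ⟨adN J (2 * D - 4 + 1) D', adN_mem hJG hD' _, ?_, ?_⟩
    · rw [adN_apply]
      have h2 : (J b : End K (N b).V) ^ (D - 1) = 0 := by
        rw [hJ b (D - 1) hb]
        obtain ⟨V, -, hcomm, hlg⟩ := lg_unit hb
        rw [hlg, hcomm.mul_pow, hb, zero_mul]
      rw [ad_nil h2 _ (by omega), LinearMap.zero_apply]
    · rw [adN_apply, h1, ← he]
      have hsk := hst.skh
      have hX : Pool.Agent.Y126.JB.ad K h (Pool.Agent.V1141.OF.TT fr.B ((1 : ℤ) : K) (x D)
          (x (D - 1))) = (-((2 * D - 2 : ℕ) : K)) •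
            Pool.Agent.V1141.OF.TT fr.B ((1 : ℤ) : K) (x D) (x (D - 1)) := by
        rw [Pool.Agent.Y126.JB.ad_apply, Pool.Agent.V1141.OF.TT_bracket _ hsk, hst.h_x, hst.h_x]
        refine LinearMap.ext fun z => ?_
        rw [LinearMap.add_apply, LinearMap.smul_apply, Pool.Agent.V1141.OF.TT_apply,
          Pool.Agent.V1141.OF.TT_apply, Pool.Agent.V1141.OF.TT_apply, map_smul, map_smul,
          LinearMap.smul_apply, LinearMap.smul_apply, smul_eq_mul, smul_eq_mul,
          Nat.cast_sub (by omega), Nat.cast_sub (by omega)]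
        push_cast
        module
      have hF : Pool.Agent.Y126.JB.ad K f (Pool.Agent.V1141.OF.TT fr.B ((1 : ℤ) : K) (x D)
          (x (D - 1))) = 0 := by
        rw [Pool.Agent.Y126.JB.ad_apply, Pool.Agent.V1141.OF.TT_bracket _ hst.skf, hst.f_x, hst.f_x,
          hst.zero _ (Nat.lt_succ_self D), show D - 1 + 1 = D by omega]
        refine LinearMap.ext fun z => ?_
        rw [LinearMap.add_apply, Pool.Agent.V1141.OF.TT_apply, Pool.Agent.V1141.OF.TT_apply,
          map_zero, LinearMap.zero_apply, Int.cast_one, one_mul, one_mul, sub_self, add_zero,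
          zero_smul, smul_zero, sub_zero, LinearMap.zero_apply]
      have key : ∀ n, n ≤ 2 * D - 2 → (Pool.Agent.Y126.JB.ad K e ^ n)
          (Pool.Agent.V1141.OF.TT fr.B ((1 : ℤ) : K) (x D) (x (D - 1))) ≠ 0 := by
        intro n
        induction n with
        | zero =>
          intro _ h0
          have h2 := LinearMap.congr_fun h0 (x 0)
          rw [pow_zero, Module.End.one_apply, Pool.Agent.V1141.OF.TT_apply, LinearMap.zero_apply,
            hst.orth (D - 1) 0 (by omega), mul_zero, zero_smul, sub_zero] at h2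
          have h3 := (smul_eq_zero.1 h2).resolve_left hJ0
          have h4 := hst.pair (D - 1) 1 (by omega)
          rw [h3, map_zero, LinearMap.zero_apply] at h4
          exact h4 rfl
        | succ n ih =>
          intro hn h0
          have h2 := f_pow hst hX hF n
          rw [h0, map_zero] at h2
          refine ih (by omega) ((smul_eq_zero.1 h2.symm).resolve_left ?_)
          refine mul_ne_zero (Nat.cast_add_one_ne_zero _) (sub_ne_zero.2 ?_)
          intro h4
          have := Nat.cast_inj.1 h4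
          omega
      exact key _ (by omega)

end Pool.Agent.Helper85.OD
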