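import Pool.Graph.R_seed8.Q71.TS.Defs

/-!
# Polarized families of orthogonal type with exactly one nontrivial Jordan block: definitions
-/

set_option autoImplicit false

open CategoryTheory AlgebraicGeometry

universe u

namespace Pool.Agent.Helper85.OD

open Pool.Agent.H914 Pool.Agent.H914.VarClass Pool.Agent.H914.VarClass.Obj
  Pool.Agent.H914.WeilCohomology Pool.Agent.H281R3.HT Pool.Agent.TH125.Gal Pool.Agent.Q71.TM.P
  Pool.Agent.Q71.TS

/-- Local information: an element `g` of `Γ` (an element of an inertia group), and a number `m`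
(the size of the Jordan block). -/
structure Place (Γ : Type) where
  /-- the element -/
  g : Γ
  /-- the size -/
  m : ℕ

section Alg

variable {K : Type} [Field K] {A : Type} [Ring A] [Algebra K A] {Γ : Type} [Group Γ]

/-- `(g - 1) ^ n` is zero on `U`. -/
def NilOn (ρ : Γ →* (A ≃ₐ[K] A)) (U : Submodule K A) (g : Γ) (n : ℕ) : Prop :=
  ∀ x ∈ U, (nil ρ g)^[n] x = 0

/-- The element `g` acts on `T` by a unipotent operator with exactly one Jordan block of size
`m ≥ 3`, and all other Jordan blocks have size one. -/
def BlockOn (ρ : Γ →* (A ≃ₐ[K] A)) (T : Submodule K A) (p : Place Γ) : Prop :=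
  3 ≤ p.m ∧ NilOn ρ T p.g p.m ∧ ¬ NilOn ρ T p.g (p.m - 1) ∧
    Module.finrank K (T.map (nil ρ p.g)) = p.m - 1

/-- The eigenvalues of `f` on the space `T` of dimension `r` are not a geometric progression
`c, c a, …, c a ^ (r - 1)`. -/
def NotProgression {T : Type} [AddCommGroup T] [Module K T] [FiniteDimensional K T]
    (f : Module.End K T) (r : ℕ) : Prop :=
  ∀ c a : K, f.charpoly ≠ ∏ l ∈ Finset.range r, (Polynomial.X - Polynomial.C (c * a ^ l))

/-- The eigenvalues of some element of `Γ` on `T` are not a geometric progression. -/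
def NotGeometricOn [FiniteDimensional K A] (ρ : Γ →* (A ≃ₐ[K] A)) (T : Submodule K A) (r : ℕ) :
    Prop :=
  ∃ (F : Γ) (hT : ∀ x ∈ T, (ρ F).toLinearMap x ∈ T),
    NotProgression ((ρ F).toLinearMap.restrict hT) r

/-- The conditions on the rank `r` and the size `m`; nothing is required if `r ≥ m + 2`. -/
def GeneralOn [FiniteDimensional K A] (ρ : Γ →* (A ≃ₐ[K] A)) (T : Submodule K A) (m r : ℕ) : Prop :=
  (r = m → m = 3 ∨ (m ≠ 7 ∧ NotGeometricOn ρ T r)) ∧ (r = m + 1 → m % 4 = 1)

/-- The space `U` is small with respect to the place `p` and the rank `r`: `(g - 1) ^ (m - 2) = 0` on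
`U`, or `U` carries a symmetric form and `dim U < r`, or `U` carries an alternating form and
`dim U + 1 < r`. -/
def SmallFor [FiniteDimensional K A] (ρ : Γ →* (A ≃ₐ[K] A)) (U : Submodule K A) (p : Place Γ)
    (r : ℕ) : Prop :=
  NilOn ρ U p.g (p.m - 2) ∨
  (FormOn ρ U 1 ∧ Module.finrank K U < r) ∨ (FormOn ρ U (-1) ∧ Module.finrank K U + 1 < r)

/-- The algebra is generated by finitely many stable subspaces which are small with respect to all
`p i`, `r i`. -/
def GenSmallFor [FiniteDimensional K A] {ι : Type} (p : ι → Place Γ) (r : ι → ℕ)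
    (ρ : Γ →* (A ≃ₐ[K] A)) : Prop :=
  ∃ (m : ℕ) (U : Fin m → Submodule K A), (∀ a i, SmallFor ρ (U a) (p i) (r i)) ∧
    (∀ a g, ∀ x ∈ U a, ρ g x ∈ U a) ∧ Algebra.adjoin K (⋃ a, (U a : Set A)) = ⊤

/-- The space `T` is contained in `G`, has the dimension `r`, which is `3` or at least `5`, is
irreducible under all subgroups of finite index, and the element of the place acts with exactly one
nontrivial Jordan block. -/
def OrthAct [FiniteDimensional K A] (p : Place Γ) (r : ℕ) (ρ : Γ →* (A ≃ₐ[K] A))
    (T G : Submodule K A) : Prop :=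
  T ≤ G ∧ Module.finrank K T = r ∧ (r = 3 ∨ 5 ≤ r) ∧ IrredAct ρ T ∧ BlockOn ρ T p ∧
    GeneralOn ρ T p.m r

end Alg

variable {k : Type u} [Field k] {𝒱 : VarClass k} {ops : CycleOps 𝒱}
  {W : WeilCohomology.{u, 0} ops} {Γ : Type} [Group Γ]

/-- `Γ` acts on the cohomology of `X` like a Galois group; numerical and homological equivalence
coincide for `X`; the dimension of `X` is even; the transcendental cohomology is in the middle
degree and satisfies `OrthAct`. -/
structure OrthType (D : Tw W.K Γ) (p : Place Γ) (r : ℕ) (X : GVar W Γ) : Prop where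
  galois : GaloisType D X
  homEqNum : HomEqNum W X.X
  even : Even X.X.dim
  act : OrthAct p r X.act (transcendental W X.X) (W.gr X.X X.X.dim)

/-- The `X i` are of orthogonal type; the transcendental parts of different `X i` are not isomorphic
up to a function on `Γ`; if two of them have rank `8` then for one of the two places the operator
satisfies `(g - 1) ^ (m - 2) = 0` on the other; and the cohomology algebra of `Z` is generated by
subspaces which are small with respect to all `X i`. -/
structure OrthFamily (D : Tw W.K Γ) {ι : Type} (p : ι → Place Γ) (r : ι → ℕ)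
    (X : ι → GVar W Γ) (Z : GVar W Γ) : Prop where
  orth : ∀ i, OrthType D (p i) (r i) (X i)
  notIso : ∀ i j, i ≠ j → ¬TwistIso (X i).act (transcendental W (X i).X) (X j).act
    (transcendental W (X j).X)
  eight : ∀ i j, i ≠ j → r i = 8 → r j = 8 →
    NilOn (X j).act (transcendental W (X j).X) (p i).g ((p i).m - 2) ∨
      NilOn (X i).act (transcendental W (X i).X) (p j).g ((p j).m - 2)
  base : GenSmallFor p r Z.act

/-- `Z` and the `X i` are members of a class `G` of varieties which is closed under products and on
whose cohomology `Γ` acts like a Galois group; the divisors `D i` on `X i` satisfy the hard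
Lefschetz theorem and the standard conjectures of Lefschetz and of Hodge type; and the `X i` and `Z`
are an `OrthFamily`. -/
structure PolFamily (T : Tw W.K Γ) (G : Set (GVar W Γ)) {ι : Type} (p : ι → Place Γ)
    (r : ι → ℕ) (X : ι → GVar W Γ) (D : ∀ i, (X i).X.Cycles) (Z : GVar W Γ) : Prop where
  galoisClass : IsClass T G
  mem : ∀ i, X i ∈ G
  mem_base : Z ∈ G
  polarization : ∀ i, IsPol W (X i).X (D i)
  family : OrthFamily T p r X Z

end Pool.Agent.Helper85.OD
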