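import Pool.Agent.Helper85.OD.App
import Pool.Agent.Helper85.OD.Defs
import Pool.Graph.R_seed8.Q71.TS.Main

/-!
# The steps for families of orthogonal type
-/

open CategoryTheory AlgebraicGeometry Finset Function

set_option linter.unusedSectionVars false

universe u

namespace Pool.Agent.Helper85.OD

open Pool.Agent.H914 Pool.Agent.H914.VarClass Pool.Agent.H914.VarClass.Obj
  Pool.Agent.H914.WeilCohomology Pool.Agent.H281R3.HT Pool.Agent.W552 Pool.Agent.TH125.Gal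
  Pool.Agent.Y127 Pool.Agent.Y127.G Pool.Agent.Q71.TS
open Pool.Agent.Q71.TM (nil_coe range_nil restrict_eq)

section restrict

variable {K : Type} [Field K] {A : Type} [Ring A] [Algebra K A] [FiniteDimensional K A]
  {Γ : Type} [Group Γ] {ρ : Γ →* (A ≃ₐ[K] A)} {T : Submodule K A} {ρT : Γ →* (T →ₗ[K] T)}
  (hρ : ∀ g x, (ρT g x : A) = ρ g x)

include hρ

theorem iter_coe (g : Γ) (n : ℕ) (x : T) :
    (((ρT g - 1 : Module.End K T) ^ n) x : A) = (Q71.TM.P.nil ρ g)^[n] (x : A) := by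
  induction n generalizing x with
  | zero => rfl
  | succ n ih =>
    rw [pow_succ, Module.End.mul_apply, ih, Function.iterate_succ_apply]
    congr 1
    exact nil_coe hρ g x

theorem nilOn_iff (g : Γ) (n : ℕ) : NilOn ρ T g n ↔ (ρT g - 1 : Module.End K T) ^ n = 0 := by
  constructor
  · intro h
    apply LinearMap.ext
    intro x
    apply Subtype.ext
    rw [iter_coe hρ]
    exact h x x.2
  · intro h x hx
    have h1 := iter_coe hρ g n ⟨x, hx⟩
    rw [h] at h1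
    exact h1.symm

theorem oneBlk_of {p : Place Γ} (h : BlockOn ρ T p) :
    0 < p.m - 1 ∧ OneBlk (K := K) (ρT p.g : Module.End K T) (p.m - 1) := by
  obtain ⟨h1, h2, h3, h4⟩ := h
  refine ⟨by omega, ⟨p.m, (nilOn_iff hρ _ _).1 h2⟩, ?_, fun h5 => h3 ((nilOn_iff hρ _ _).2 h5)⟩
  exact (range_nil hρ p.g).trans h4

theorem cond_of {m r : ℕ} (hm : 3 ≤ m) (hr : Module.finrank K T = r) (_h5 : r = 3 ∨ 5 ≤ r)
    (h : GeneralOn ρ T m r) : SJ.Cond (K := K) (T := T) (Γ := Γ) 1 (m - 1) ρT := by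
  obtain ⟨h1, h2⟩ := h
  refine ⟨fun _ hd => ?_, fun _ hd => ?_, fun h => by norm_num at h⟩
  · rcases h1 (by omega) with h3 | ⟨h3, F, hT, h4⟩
    · exact Or.inl (by omega)
    · refine Or.inr ⟨by omega, F, fun c a => ?_⟩
      have h6 := h4 c a
      rw [restrict_eq hρ F hT] at h6
      rw [hr]
      exact h6
  · have h3 : m % 4 = 1 := h2 (by omega)
    exact Or.inl (by omega)

end restrict

variable {k : Type u} [Field k] {𝒱 : VarClass k} {ops : CycleOps 𝒱}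
  {W : WeilCohomology.{u, 0} ops} {Γ : Type} [Group Γ] {D₀ : Q71.TM.P.Tw W.K Γ}
  {ι : Type} {X : ι → GVar W Γ} {Z : GVar W Γ} {pl : ι → Place Γ} {r : ι → ℕ}
  {G : Set (GVar W Γ)}

theorem gal {p : Place Γ} {r : ℕ} {X : GVar W Γ} (h : OrthType D₀ p r X) :
    Pool.Agent.Y127.GaloisType D₀.χ X := h.galois

theorem middle {p : Place Γ} {r : ℕ} {X : GVar W Γ} (h : OrthType D₀ p r X) :
    transcendental W X.X ≤ W.gr X.X X.X.dim := h.act.1

theorem rank_eq {p : Place Γ} {r : ℕ} {X : GVar W Γ} (h : OrthType D₀ p r X) :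
    transRank W X.X = r := h.act.2.1

theorem rank {p : Place Γ} {r : ℕ} {X : GVar W Γ} (h : OrthType D₀ p r X) :
    transRank W X.X = 3 ∨ 5 ≤ transRank W X.X := by
  rw [rank_eq h]
  exact h.act.2.2.1

/-- varieties of orthogonal type give representations of orthogonal type -/
noncomputable def oRep [IsAlgClosed W.K] {p : Place Γ} {r : ℕ} {X : GVar W Γ}
    (hX : OrthType D₀ p r X) : ORep p.g (p.m - 1) (trRep (gal hX)) where
  B := rform W X.X (transcendental W X.X)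
  μ := D₀.χ ^ X.X.dim
  eqv := fun g x y => tr_eqv (gal hX) g x y
  sy := fun x y => tr_sy (middle hX) hX.even x y
  nd := trans_nondeg hX.homEqNum
  si := SI_rhoT (P := (⟨X.X, 0⟩ : Polarized 𝒱)) (isGalois (gal hX)) hX.act.2.2.2.1
  dim := rank hX
  pos := (oneBlk_of (ρT := rhoT (isGalois (gal hX))) (fun g x => rfl) hX.act.2.2.2.2.1).1
  blk := (oneBlk_of (ρT := rhoT (isGalois (gal hX))) (fun g x => rfl) hX.act.2.2.2.2.1).2
  cond := cond_of (ρT := rhoT (isGalois (gal hX))) (fun g x => rfl) hX.act.2.2.2.2.1.1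
    hX.act.2.1 hX.act.2.2.1 hX.act.2.2.2.2.2

theorem smallR_subRep [IsAlgClosed W.K] {A : Type} [Ring A] [Algebra W.K A]
    [FiniteDimensional W.K A]
    {ρ : Γ →* (A ≃ₐ[W.K] A)} {U : Submodule W.K A} (hU : ∀ g, ∀ x ∈ U, ρ g x ∈ U) {p : Place Γ}
    {r : ℕ} (h : SmallFor ρ U p r) : SmallR p.g (p.m - 1) r (subRep ρ U hU) := by
  have key : ∀ s : W.K, Q71.TM.P.FormOn ρ U s → HasForm s (subRep ρ U hU) := by
    rintro s ⟨μ, B, h3, h4, h5⟩
    refine ⟨μ, B.domRestrict₁₂ U U, fun (x y : U) => h3 x x.2 y y.2, fun (x : U) hx => ?_,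
      fun g (x y : U) => h5 g x x.2 y y.2⟩
    exact Subtype.ext (h4 x x.2 fun y hy => hx ⟨y, hy⟩)
  rcases h with h1 | ⟨h1, h2⟩ | ⟨h1, h2⟩
  · refine Or.inl ?_
    have h3 := (nilOn_iff (ρT := (subRep ρ U hU).ρ) (fun g x => rfl) p.g (p.m - 2)).1 h1
    rw [show p.m - 2 = p.m - 1 - 1 by omega] at h3
    exact h3
  · exact Or.inr (Or.inl ⟨key _ h1, h2⟩)
  · exact Or.inr (Or.inr ⟨key _ h1, h2⟩)

/-- the base in the form used in the proofs -/
theorem baseRep [IsAlgClosed W.K] (hX : OrthFamily D₀ pl r X Z) :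
    ∃ (m : ℕ) (M : Fin m → FRep W.K Γ) (f : ∀ a, (M a).V →ₗ[W.K] W.H Z.X),
      (∀ a i, SmallR (pl i).g ((pl i).m - 1) (transRank W (X i).X) (M a)) ∧
      (∀ a g x, f a ((M a).ρ g x) = Z.act g (f a x)) ∧
      Algebra.adjoin W.K (⋃ a, Set.range (f a)) = ⊤ := by
  obtain ⟨m, U, h1, h2, h3⟩ := hX.base
  refine ⟨m, fun a => subRep Z.act (U a) (h2 a), fun a => (U a).subtype,
    fun a i => ?_, fun a g x => rfl, ?_⟩
  · rw [rank_eq (hX.orth i)]
    exact smallR_subRep (h2 a) (h1 a i)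
  · rw [← h3]
    congr 1
    refine Set.iUnion_congr fun a => ?_
    change Set.range ((U a).subtype) = _
    rw [Submodule.coe_subtype, Subtype.range_coe_subtype]
    rfl

theorem eight_of [IsAlgClosed W.K] (hX : OrthFamily D₀ pl r X Z) {i j : ι} (hij : i ≠ j)
    (hi : transRank W (X i).X = 8) (hj : transRank W (X j).X = 8) :
    Mild (pl i).g ((pl i).m - 1 - 1) (trRep (gal (hX.orth j))) ∨
      Mild (pl j).g ((pl j).m - 1 - 1) (trRep (gal (hX.orth i))) := by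
  rw [rank_eq (hX.orth i)] at hi
  rw [rank_eq (hX.orth j)] at hj
  rcases hX.eight i j hij hi hj with h | h
  · left
    have h1 := (nilOn_iff (ρT := rhoT (isGalois (gal (hX.orth j)))) (fun g x => rfl) _ _).1 h
    exact h1
  · right
    have h1 := (nilOn_iff (ρT := rhoT (isGalois (gal (hX.orth i)))) (fun g x => rfl) _ _).1 h
    exact h1

variable [IsAlgClosed W.K]

/-- **The Lie algebra kills the coordinates.** -/
theorem inv_stepD' (hX : OrthFamily D₀ pl r X Z) {S : Set ι} (hS : S.Finite) {i : ι} (hi : i ∉ S)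
    {n : ℕ} {D : (X i).X.Cycles} {B : 𝒱.Obj} {τ : Γ →* (W.H B ≃ₐ[W.K] W.H B)} {m : ℕ}
    {M : Fin m → FRep W.K Γ} (hM : ∀ a i, SmallR (pl i).g ((pl i).m - 1) (transRank W (X i).X) (M a))
    (hgb : GenBy (fun j => trRep (gal (hX.orth j))) M D₀.χ τ S)
    {υ : Γ →* (W.H ((nest ops n fun _ => (⟨(X i).X, D⟩ : Polarized 𝒱)).X.prod B) ≃ₐ[W.K]
      W.H ((nest ops n fun _ => (⟨(X i).X, D⟩ : Polarized 𝒱)).X.prod B))}
    (hP : IsPowAct W (⟨(X i).X, D⟩ : Polarized 𝒱) n B (X i).act τ υ)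
    {s : SB W (X i).X}
    {b : Module.Basis (Fin (n + 1) → Fin s.NC ⊕ Fin s.NT) W.K
      (W.H (nest ops n fun _ => (⟨(X i).X, D⟩ : Polarized 𝒱)).X)}
    (hb : ∀ r, b r = mono (prj ops n fun _ => (⟨(X i).X, D⟩ : Polarized 𝒱)) fun p => s.e (r p))
    {z : W.H ((nest ops n fun _ => (⟨(X i).X, D⟩ : Polarized 𝒱)).X.prod B)} {j : ℕ}
    {Δ : Subgroup Γ} (hΔ : Δ.FiniteIndex)
    (hz : ∀ g ∈ Δ, υ g z = (D₀.χ g : W.K) ^ j • z) (c₀ : Fin (n + 1) → Option (Fin s.NC)) :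
    TH125.Nod.Inv (fun _ : Fin s.NT => ()) (gram (P := (⟨(X i).X, D⟩ : Polarized 𝒱)) s)
      (fun _ => 1) (fun r : Free c₀ → Fin s.NT =>
        TH125.Gal.hS (P := (⟨(X i).X, D⟩ : Polarized 𝒱)) s b z c₀ fun l => s.uT (r l)) := by
  have hgal := fun i => gal (hX.orth i)
  have hG : IsGalois W D₀.χ (X i).X (X i).act := isGalois (hgal i)
  have h1 := hS_eqv (P := (⟨(X i).X, D⟩ : Polarized 𝒱)) hb hG hP hΔ hz c₀
  have h2 := fun x y => kill_of_data (A := W.H B) (T := fun j => trRep (hgal j)) (M := M)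
    (χ := D₀.χ) (τ := τ) hS hgb (g := fun j => (pl j).g) (dd := fun j => (pl j).m - 1)
    (fun j => oRep (hX.orth j)) (fun i j hij => not_isoUpTo (hX.notIso i j hij)) hi
    (fun j hj h8 h8' => eight_of hX hj.symm h8 h8')
    (fun a => hM a i) (lamb (P := (⟨(X i).X, D⟩ : Polarized 𝒱)) D₀.χ s c₀ j)
    (h := TH125.Gal.hS (P := (⟨(X i).X, D⟩ : Polarized 𝒱)) s b z c₀) h1 x y
  exact inv_of_kill (s := (1 : W.K)) (B := rform W (X i).X (transcendental W (X i).X))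
    (fun u w => h2 u w) s.uT

/-- **The algebraic classes on the products with powers.** -/
theorem tgt_of_alg' (hX : OrthFamily D₀ pl r X Z) (hG : GaloisClass D₀.χ G) {S : Set ι} (hS : S.Finite)
    {i : ι} (hXi : X i ∈ G) (hi : i ∉ S) {B : 𝒱.Obj} {τ : Γ →* (W.H B ≃ₐ[W.K] W.H B)}
    (hτ : (⟨B, τ⟩ : GVar W Γ) ∈ G) {m : ℕ}
    {M : Fin m → FRep W.K Γ} (hM : ∀ a i, SmallR (pl i).g ((pl i).m - 1) (transRank W (X i).X) (M a))
    (hgb : GenBy (fun j => trRep (gal (hX.orth j))) M D₀.χ τ S) (D : (X i).X.Cycles) {n : ℕ}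
    (hn : n + 1 < transRank W (X i).X) :
    ∃ s : SB W (X i).X, ∀ q ≤ n,
      ∀ c : W.H ((nest ops q fun _ => (⟨(X i).X, D⟩ : Polarized 𝒱)).X.prod B),
      W552.AS W _ c → c ∈ Tgt (P := ⟨(X i).X, D⟩) s q B := by
  have hpos : 0 < Module.finrank W.K (transcendental W (X i).X) := by
    have h1 := (rank (hX.orth i))
    change 0 < transRank W (X i).X
    omega
  obtain ⟨s, o, R, ho, hR⟩ := exists_adapted_SB (P := (⟨(X i).X, D⟩ : Polarized 𝒱))
    (hX.orth i).homEqNum (middle (hX.orth i)) (hX.orth i).even hpos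
  refine ⟨s, fun q hq c hc => ?_⟩
  obtain ⟨υ, hυ, hP⟩ := exists_pow_act (B := ⟨B, τ⟩) hG hXi hτ D q
  obtain ⟨b, hb⟩ := exists_monoBasis (ops := ops) (⟨(X i).X, D⟩ : Polarized 𝒱) s.e q
  have hgal := hG.galois _ hυ
  refine W552.AS.ind (p := fun c => c ∈ Tgt (P := ⟨(X i).X, D⟩) s q B) ?_ ?_ hc
  · intro j c hc
    obtain ⟨Δ, hΔ, h1⟩ := hgal.cl_fix j c hc
    obtain ⟨Δ', hΔ', hfix⟩ := exists_fix (isGalois (gal (hX.orth i))) s
    have h2 : ∀ g ∈ Δ ⊓ Δ', υ g c = (D₀.χ g : W.K) ^ j • c := fun g hg => h1 g hg.1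
    refine tgt_step (P := (⟨(X i).X, D⟩ : Polarized 𝒱)) (ε := fun _ => 1) (Δ := Δ ⊓ Δ') (j := j) hb
      (middle (hX.orth i)) (isGalois (gal (hX.orth i))) hP (hX.orth i).even hR ho
      (fun g hg a => hfix g hg.2 a) (alg_gr hc)
      (fun g hg => by rw [one_mul]; exact h2 g hg)
      (inv_stepD' hX hS hi hM hgb hP hb (z := c) (j := j) (Δ := Δ ⊓ Δ') inferInstance h2) rfl
      (Or.inl ?_)
    unfold transRank at hn
    rw [Module.finrank_eq_card_basis s.uT, Fintype.card_fin] at hn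
    omega
  · intro x y hx hy
    exact Submodule.add_mem _ hx hy

/-- **All steps.** -/
theorem tsteps' (hX : OrthFamily D₀ pl r X Z) (hG : GaloisClass D₀.χ G) (hXG : ∀ i, X i ∈ G)
    (hZ : Z ∈ G) {D : ∀ i, (X i).X.Cycles} (hpol : ∀ i, IsPolarization W (X i).X (D i))
    (E : Z.X.Cycles) (L : List (ι × ℕ)) (hL : (L.map Prod.fst).Nodup)
    (hn : ∀ a ∈ L, a.2 + 1 < transRank W (X a.1).X) :
    TSteps W (fun i => (⟨(X i).X, D i⟩ : Polarized 𝒱)) ⟨Z.X, E⟩ L := by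
  induction L with
  | nil => exact trivial
  | cons a L ih =>
    rw [List.map_cons, List.nodup_cons] at hL
    refine ⟨?_, ih hL.2 fun b hb => hn b (List.mem_cons_of_mem _ hb)⟩
    obtain ⟨m, M, f, hM, hf, hgen⟩ := baseRep hX
    obtain ⟨υ, hυ, hgb⟩ := exists_tower_gen hG hXG hZ (fun i => gal (hX.orth i))
      (fun i => (hX.orth i).homEqNum) D E hf hgen L
    refine ⟨hpol a.1, (middle (hX.orth a.1)), ?_, ?_⟩
    · intro h3
      have h1 := (rank (hX.orth a.1))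
      have h4 : Subsingleton (transcendental W (X a.1).X) := by
        refine ⟨fun x y => Subtype.ext ?_⟩
        have h5 : ∀ z : W.H (X a.1).X, z = 0 := fun z => by
          rw [← one_mul z]
          exact (congrArg (· * z) h3).trans (zero_mul z)
        rw [h5 x, h5 y]
      have h5 : transRank W (X a.1).X = 0 := Module.finrank_zero_of_subsingleton
      omega
    · exact tgt_of_alg' hX hG (L.map Prod.fst).finite_toSet (hXG a.1) hL.1 hυ hM hgb (D a.1)
        (hn a List.mem_cons_self)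

/-- **The conjecture D.** -/
theorem PolFamily.homEqNum {D : ∀ i, (X i).X.Cycles} (h : PolFamily D₀ G pl r X D Z)
    (E : Z.X.Cycles) {L : List (ι × ℕ)} (hL : SmallExps r L) :
    HomEqNum W (polTower ops (fun i => ⟨(X i).X, D i⟩) ⟨Z.X, E⟩ L).X ↔ HomEqNum W Z.X := by
  rw [polTower_eq]
  exact homEqNum_tower (tsteps' h.family h.galoisClass.to h.mem h.mem_base
    (fun i => (h.polarization i).to) E L hL.1
    fun a ha => by rw [rank_eq (h.family.orth a.1)]; exact hL.2 a ha)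

end Pool.Agent.Helper85.OD
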